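import Pool.Agent.MP_be203f_lc.R.Pos

namespace Pool.Agent.MP_be203f_lc.Z

open Cardinal Set Pool.Agent.MP_be203f_lc.R

universe u

section

variable {k : Cardinal.{u}}

theorem wc_bdd (hr : k.IsRegular) {a : Set k.ord.ToType} (ha : #a < k) :
    ∃ z, ∀ x ∈ a, x < z := by
  refine not_isCofinal_iff.1 fun h : IsCofinal a => ?_
  have := Order.cof_le h
  rw [Ordinal.cof_toType, hr.cof_ord] at this
  exact this.not_gt ha

theorem wc_Iic (hk : ℵ₀ ≤ k) (x : k.ord.ToType) : #(Iic x) < k := by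
  rw [← Iio_insert]
  exact mk_insert_le.trans_lt
    (add_lt_of_lt hk (mk_Iio_toType_ord_lt x) (one_lt_aleph0.trans_le hk))

theorem wc_unb (hk : ℵ₀ ≤ k) {H : Set k.ord.ToType} (hH : #H = k) (x : k.ord.ToType) :
    ∃ y ∈ H, x < y := by
  by_contra h
  push Not at h
  exact (hH ▸ (mk_le_mk_of_subset (fun y hy => h y hy : H ⊆ Iic x))).not_gt (wc_Iic hk x)

theorem wc_regular (hk : ℵ₀ ≤ k)
    (h : ∀ c : k.ord.ToType → k.ord.ToType → Bool, ∃ (H : Set k.ord.ToType) (i : Bool),
      #H = k ∧ ∀ a ∈ H, ∀ b ∈ H, a < b → c a b = i) : k.IsRegular := by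
  classical
  refine IsRegular.of_not_isSingular hk fun hs => ?_
  obtain ⟨s, hs1, hs2⟩ := Order.exists_cof_eq (α := k.ord.ToType)
  rw [Ordinal.cof_toType] at hs2
  have hs3 : #s < k := hs2 ▸ hs.cof_ord_lt
  choose g hg1 hg2 using hs1
  obtain ⟨H, i, hH, hc⟩ := h fun a b => decide (g a = g b)
  cases i
  · have : #H ≤ #s := by
      refine mk_le_of_injective (f := fun x : H => (⟨g x, hg1 x⟩ : s)) fun x y hxy => ?_
      have e : g x = g y := congrArg Subtype.val hxy
      rcases lt_trichotomy x.1 y.1 with l | l | l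
      · exact absurd e (by simpa using hc x x.2 y y.2 l)
      · exact Subtype.ext l
      · exact absurd e.symm (by simpa using hc y y.2 x x.2 l)
    exact (hH ▸ this).not_gt hs3
  · have hne : H.Nonempty := by
      rw [nonempty_iff_ne_empty]
      rintro rfl
      rw [mk_emptyCollection] at hH
      exact (aleph0_pos.trans_le hk).ne hH
    obtain ⟨x, hx⟩ := hne
    obtain ⟨y, hy, hxy⟩ := wc_unb hk hH (g x)
    have e : g x = g y := by simpa using hc x hx y hy ((hg2 x).trans_lt hxy)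
    exact (e ▸ hg2 y).not_gt hxy

/-- Every sequence of binary words stabilises coordinatewise along a large set. -/
theorem wc_stab (hr : k.IsRegular)
    (h : ∀ c : k.ord.ToType → k.ord.ToType → Bool, ∃ (H : Set k.ord.ToType) (i : Bool),
      #H = k ∧ ∀ a ∈ H, ∀ b ∈ H, a < b → c a b = i)
    {I : Type u} [LinearOrder I] [WellFoundedLT I] (hI : ∀ i : I, #(Iio i) < k)
    (f : k.ord.ToType → I → Bool) :
    ∃ (H : Set k.ord.ToType) (w : I → Bool), #H = k ∧
      ∀ i, ∃ z, ∀ x ∈ H, z < x → f x i = w i := by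
  classical
  obtain ⟨H, t, hH, hc⟩ := h fun a b => decide (toLex (f a) ≤ toLex (f b))
  have key : ∀ i, ∃ b z, ∀ x ∈ H, z < x → f x i = b := by
    intro i
    induction i using WellFoundedLT.induction with
    | ind i ih =>
      choose b z hz using ih
      obtain ⟨z0, hz0⟩ := wc_bdd hr (a := range fun j : Iio i => z j.1 j.2)
        (mk_range_le.trans_lt (hI i))
      have agree : ∀ x ∈ H, z0 < x → ∀ y ∈ H, z0 < y → ∀ j < i, f x j = f y j := by
        intro x hx h1 y hy h2 j hj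
        have := hz0 _ ⟨⟨j, hj⟩, rfl⟩
        rw [hz j hj x hx (this.trans h1), hz j hj y hy (this.trans h2)]
      by_cases hex : ∃ x ∈ H, z0 < x ∧ f x i = t
      · obtain ⟨x, hx, h1, h2⟩ := hex
        refine ⟨t, x, fun y hy hxy => ?_⟩
        have hag := agree x hx h1 y hy (h1.trans hxy)
        have hcc := hc x hx y hy hxy
        by_contra hne
        cases t
        · have : toLex (f x) < toLex (f y) := ⟨i, hag, by
            show f x i < f y i
            rw [h2, Bool.eq_true_of_not_eq_false hne]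
            exact Bool.false_lt_true⟩
          exact (of_decide_eq_false hcc) this.le
        · have : toLex (f y) < toLex (f x) := ⟨i, fun j hj => (hag j hj).symm, by
            show f y i < f x i
            rw [h2, Bool.eq_false_of_not_eq_true hne]
            exact Bool.false_lt_true⟩
          exact (of_decide_eq_true hcc).not_gt this
      · push Not at hex
        exact ⟨!t, z0, fun x hx h1 => Bool.eq_not_iff.2 (hex x hx h1)⟩
  choose w hw using key
  exact ⟨H, w, hH, hw⟩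

theorem wc_strong (hr : k.IsRegular)
    (h : ∀ c : k.ord.ToType → k.ord.ToType → Bool, ∃ (H : Set k.ord.ToType) (i : Bool),
      #H = k ∧ ∀ a ∈ H, ∀ b ∈ H, a < b → c a b = i) : k.IsStrongLimit := by
  refine ⟨hr.ne_zero, fun l hl => ?_⟩
  by_contra hle
  obtain ⟨f⟩ : Nonempty (k.ord.ToType ↪ (l.ord.ToType → Bool)) := by
    rw [← Cardinal.le_def]
    simpa using not_lt.1 hle
  obtain ⟨H, w, hH, hw⟩ := wc_stab hr h (I := l.ord.ToType)
    (fun i => (mk_Iio_toType_ord_lt i).trans hl) f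
  choose z hz using hw
  obtain ⟨z0, hz0⟩ := wc_bdd hr (a := range z) (mk_range_le.trans_lt (by simpa using hl))
  obtain ⟨x, hx, h1⟩ := wc_unb hr.aleph0_le hH z0
  obtain ⟨y, hy, h2⟩ := wc_unb hr.aleph0_le hH x
  refine h2.ne (f.injective (funext fun i => ?_))
  have := hz0 _ ⟨i, rfl⟩
  rw [hz i x hx (this.trans h1), hz i y hy (this.trans (h1.trans h2))]

theorem wc_box (hr : k.IsRegular)
    (h : ∀ c : k.ord.ToType → k.ord.ToType → Bool, ∃ (H : Set k.ord.ToType) (i : Bool),
      #H = k ∧ ∀ a ∈ H, ∀ b ∈ H, a < b → c a b = i) : BoxCompact k k := by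
  classical
  have hs := wc_strong hr h
  intro C hC hcov
  by_contra hne
  push Not at hne
  obtain ⟨e⟩ : Nonempty (k.out ≃ k.ord.ToType) := by
    rw [← Cardinal.eq]; simp
  -- trace of a box below `x`
  let tr : (x : k.ord.ToType) → (Set k.out × (k.out → Bool)) → (Iio x → Bool × Bool) :=
    fun x c j => (decide (e.symm j ∈ c.1), decide (e.symm j ∈ c.1) && c.2 (e.symm j))
  let Cx : k.ord.ToType → Set (Set k.out × (k.out → Bool)) :=
    fun x => {c ∈ C | ∀ i ∈ c.1, e i < x}
  have hw : ∀ x, ∃ w : k.out → Bool, ∀ c ∈ Cx x, ∃ i ∈ c.1, w i ≠ c.2 i := by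
    intro x
    obtain ⟨D, hD, hinj, himg⟩ : ∃ D ⊆ Cx x, InjOn (tr x) D ∧ tr x '' D = tr x '' Cx x := by
      obtain ⟨D, h1, h2⟩ := exists_subset_bijOn (Cx x) (tr x)
      exact ⟨D, h1, h2.injOn, h2.image_eq⟩
    have hDk : #D < k := by
      rw [← mk_image_eq_of_injOn _ _ hinj]
      refine (mk_set_le _).trans_lt ?_
      have h4 : #(Iio x → Bool × Bool) = 2 ^ (#(Iio x) + #(Iio x)) := by
        rw [power_add, ← mul_power, two_mul, two_add_two_eq_four]
        simp
      rw [h4]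
      exact hs.isStrongPrelimit (add_lt_of_lt hr.aleph0_le (mk_Iio_toType_ord_lt x)
        (mk_Iio_toType_ord_lt x))
    obtain ⟨w, hw⟩ := hne D (fun c hc => (hD hc).1) hDk
    refine ⟨w, fun c hc => ?_⟩
    obtain ⟨d, hd, hdc⟩ : tr x c ∈ tr x '' D := himg ▸ mem_image_of_mem _ hc
    obtain ⟨i, hi, hwi⟩ := hw d hd
    have := congrFun hdc ⟨e i, (hD hd).2 i hi⟩
    simp only [tr, Equiv.symm_apply_apply, hi, decide_true, Bool.true_and, Prod.mk.injEq] at this
    have hic : i ∈ c.1 := of_decide_eq_true this.1.symm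
    refine ⟨i, hic, ?_⟩
    have h5 := this.2
    simp only [hic, decide_true, Bool.true_and] at h5
    rwa [← h5]
  choose f hf using hw
  obtain ⟨H, w, hH, hw⟩ := wc_stab hr h (I := k.ord.ToType) mk_Iio_toType_ord_lt
    fun x j => f x (e.symm j)
  choose z hz using hw
  obtain ⟨c, hc, hcw⟩ := hcov fun i => w (e i)
  obtain ⟨z0, hz0⟩ := wc_bdd hr (a := e '' c.1 ∪ (z ∘ e) '' c.1)
    ((mk_union_le _ _).trans_lt (add_lt_of_lt hr.aleph0_le (mk_image_le.trans_lt (hC c hc))
      (mk_image_le.trans_lt (hC c hc))))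
  obtain ⟨x, hx, h1⟩ := wc_unb hr.aleph0_le hH z0
  obtain ⟨i, hi, hfi⟩ := hf x c ⟨hc, fun i hi => (hz0 _ (Or.inl ⟨i, hi, rfl⟩)).trans h1⟩
  have := hz (e i) x hx ((hz0 _ (Or.inr ⟨i, hi, rfl⟩)).trans h1)
  simp only [Equiv.symm_apply_apply] at this
  exact hfi (this.trans (hcw i hi))

end

theorem box_of_part (k : Cardinal.{u}) (hk : ℵ₀ < k)
    (h : ∀ c : k.ord.ToType → k.ord.ToType → Bool, ∃ (H : Set k.ord.ToType) (i : Bool),
      #H = k ∧ ∀ a ∈ H, ∀ b ∈ H, a < b → c a b = i) :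
    k.IsRegular ∧ k.IsStrongLimit ∧ BoxCompact k k :=
  have hr := wc_regular hk.le h
  ⟨hr, wc_strong hr h, wc_box hr h⟩

theorem sq_of_part (k : Cardinal.{u}) (hk : ℵ₀ < k)
    (h : ∀ c : k.ord.ToType → k.ord.ToType → Bool, ∃ (H : Set k.ord.ToType) (i : Bool),
      #H = k ∧ ∀ a ∈ H, ∀ b ∈ H, a < b → c a b = i) : SqCompact k k :=
  sq_of_box hk.le hk.le (box_of_part k hk h).2.2

end Pool.Agent.MP_be203f_lc.Z
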